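import Pool.Agent.Run7.h450.CS.Iface

/-! # CL (helper450), pieces GAM and SGN (helper24) -/

set_option autoImplicit false

namespace Run7.h24.CL

open Run7.h450.CL Matrix

theorem wd_succ {R : Type} [Monoid R] {n : ℕ} (u : Fin (n + 1) → R) : wd u = u 0 * wd (fun k => u k.succ) := by
  unfold wd
  rw [List.ofFn_succ, List.prod_cons]

section
variable {K : Type} [Fintype K] [DecidableEq K] {m : ℕ} {γ : Fin m → Matrix K K ℂ}

/-- products over lists -/
def P (γ : Fin m → Matrix K K ℂ) (l : List (Fin m)) : Matrix K K ℂ := (l.map γ).prod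

theorem pass (h : Cl γ) (j : Fin m) (l : List (Fin m)) :
    P γ l * γ j = ((l.map (fun i => if i = j then (1 : ℤ) else -1)).prod) • (γ j * P γ l) := by
  induction l with
  | nil => simp [P]
  | cons a l ih =>
    have e : P γ (a :: l) = γ a * P γ l := by simp [P]
    rw [e, mul_assoc, ih, List.map_cons, List.prod_cons, mul_smul_comm, ← mul_assoc]
    by_cases ha : a = j
    · rw [if_pos ha, one_mul, ha, mul_assoc (γ j) (γ j)]
    · rw [if_neg ha, h.anti a j ha, neg_mul, neg_one_mul, neg_smul, smul_neg, mul_assoc (γ j) (γ a)]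

theorem pass_pm (h : Cl γ) (j : Fin m) (l : List (Fin m)) :
    P γ l * γ j = γ j * P γ l ∨ P γ l * γ j = -(γ j * P γ l) := by
  induction l with
  | nil => left; simp [P]
  | cons a l ih =>
    have e : P γ (a :: l) = γ a * P γ l := by simp [P]
    have h1 : γ a * γ j = γ j * γ a ∨ γ a * γ j = -(γ j * γ a) := by
      by_cases ha : a = j
      · left; rw [ha]
      · right; exact h.anti a j ha
    rw [e, mul_assoc, ← mul_assoc (γ j)]
    rcases ih with ih | ih <;> rcases h1 with h1 | h1
    · left; rw [ih, ← mul_assoc, h1]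
    · right; rw [ih, ← mul_assoc, h1, neg_mul]
    · right; rw [ih, mul_neg, ← mul_assoc, h1]
    · left; rw [ih, mul_neg, ← mul_assoc, h1, neg_mul, neg_neg]

theorem sq_pm (h : Cl γ) (l : List (Fin m)) : P γ l * P γ l = 1 ∨ P γ l * P γ l = -1 := by
  induction l with
  | nil => left; simp [P]
  | cons a l ih =>
    have e : P γ (a :: l) = γ a * P γ l := by simp [P]
    have e2 : γ a * P γ l * (γ a * P γ l) = γ a * (P γ l * γ a) * P γ l := by
      simp only [mul_assoc]
    rw [e, e2]
    have e3 : γ a * (γ a * P γ l) * P γ l = P γ l * P γ l := by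
      rw [← mul_assoc, h.sq, one_mul]
    rcases pass_pm h a l with h1 | h1
    · rw [h1, e3]; exact ih
    · rw [h1, mul_neg, neg_mul, e3]
      rcases ih with ih | ih
      · right; rw [ih]
      · left; rw [ih, neg_neg]

theorem wd_eq_P : wd γ = P γ (List.finRange m) := by
  unfold wd P
  rw [List.ofFn_eq_map]

end

theorem t_GAM : S_GAM := by
  classical
  intro K _ _ p γ hp h
  refine ⟨fun j => ?_, ?_⟩
  · unfold Gam
    rw [wd_eq_P, pass h j]
    have h1 : ((List.finRange (p + 1)).map (fun i => if i = j then (1 : ℤ) else -1)).prod = -1 := by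
      rw [← List.ofFn_eq_map, List.prod_ofFn]
      rw [← Finset.mul_prod_erase Finset.univ _ (Finset.mem_univ j), if_pos rfl, one_mul]
      rw [Finset.prod_congr rfl (fun i hi => if_neg (Finset.ne_of_mem_erase hi))]
      rw [Finset.prod_const, Finset.card_erase_of_mem (Finset.mem_univ j), Finset.card_univ, Fintype.card_fin]
      exact hp.neg_one_pow
    rw [h1, neg_smul, one_smul]
  · unfold Gam
    rw [wd_eq_P]
    exact sq_pm h _

theorem wd_swap {R : Type} [Ring R] : ∀ (n : ℕ) (i : Fin n) (u : Fin (n + 1) → R),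
    u i.castSucc * u i.succ = -(u i.succ * u i.castSucc) →
    wd (fun k => u (Equiv.swap i.castSucc i.succ k)) = - wd u := by
  intro n
  induction n with
  | zero => intro i; exact i.elim0
  | succ n ih =>
    intro i
    refine Fin.cases ?_ (fun j => ?_) i
    · intro u hu
      rw [wd_succ, wd_succ (fun k => u _), wd_succ u, wd_succ (fun k => u k.succ)]
      have e0 : Equiv.swap (Fin.castSucc (0 : Fin (n + 1))) (Fin.succ 0) 0 = Fin.succ 0 := by
        rw [Fin.castSucc_zero]; exact Equiv.swap_apply_left _ _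
      have e1 : Equiv.swap (Fin.castSucc (0 : Fin (n + 1))) (Fin.succ 0) (Fin.succ 0) = 0 := by
        rw [Fin.castSucc_zero]; exact Equiv.swap_apply_right _ _
      have e2 : ∀ k : Fin n, Equiv.swap (Fin.castSucc (0 : Fin (n + 1))) (Fin.succ 0) k.succ.succ = k.succ.succ := by
        intro k
        apply Equiv.swap_apply_of_ne_of_ne
        · rw [Fin.castSucc_zero]; exact Fin.succ_ne_zero _
        · intro h; exact Fin.succ_ne_zero k (Fin.succ_injective _ h)
      simp only [e0, e1, e2]
      rw [Fin.castSucc_zero] at hu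
      rw [← mul_assoc, ← mul_assoc, hu, neg_mul, neg_neg]
    · intro u hu
      rw [wd_succ, wd_succ u]
      have e0 : Equiv.swap (Fin.castSucc j.succ) (Fin.succ j.succ) 0 = 0 := by
        apply Equiv.swap_apply_of_ne_of_ne
        · rw [← Fin.succ_castSucc]; exact (Fin.succ_ne_zero _).symm
        · exact (Fin.succ_ne_zero _).symm
      have e1 : ∀ k : Fin (n + 1), Equiv.swap (Fin.castSucc j.succ) (Fin.succ j.succ) k.succ =
          (Equiv.swap j.castSucc j.succ k).succ := by
        intro k
        rw [← Fin.succ_castSucc]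
        by_cases h1 : k = j.castSucc
        · rw [h1, Equiv.swap_apply_left, Equiv.swap_apply_left]
        by_cases h2 : k = j.succ
        · rw [h2, Equiv.swap_apply_right, Equiv.swap_apply_right]
        rw [Equiv.swap_apply_of_ne_of_ne h1 h2, Equiv.swap_apply_of_ne_of_ne]
        · intro h; exact h1 (Fin.succ_injective _ h)
        · intro h; exact h2 (Fin.succ_injective _ h)
      simp only [e0, e1]
      have h3 := ih j (fun k => u k.succ) (by rw [← Fin.succ_castSucc] at hu; exact hu)
      rw [h3, mul_neg]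

theorem sg_mul {m : ℕ} (σ τ : Equiv.Perm (Fin m)) : sg (σ * τ) = sg σ * sg τ := by
  unfold sg
  rw [Equiv.Perm.sign_mul]
  push_cast
  ring

theorem cl_comp {K : Type} [Fintype K] [DecidableEq K] {m : ℕ} {γ : Fin m → Matrix K K ℂ} (h : Cl γ)
    (σ : Equiv.Perm (Fin m)) : Cl (fun k => γ (σ k)) :=
  ⟨fun j => h.sq _, fun j k hjk => h.anti _ _ (fun he => hjk (σ.injective he))⟩

theorem t_SGN : S_SGN := by
  intro K _ _ m
  cases m with
  | zero =>
    intro γ _ σ
    have : σ = 1 := Subsingleton.elim _ _
    subst this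
    simp [sg]
  | succ n =>
    intro γ hγ σ
    have hσ : σ ∈ Submonoid.closure (Set.range fun i : Fin n => Equiv.swap i.castSucc i.succ) := by
      rw [Equiv.Perm.mclosure_swap_castSucc_succ]; trivial
    induction hσ using Submonoid.closure_induction generalizing γ with
    | mem τ hτ =>
      obtain ⟨i, rfl⟩ := hτ
      have hne : i.castSucc ≠ i.succ := (Fin.castSucc_lt_succ).ne
      have h1 := wd_swap n i γ (hγ.anti _ _ hne)
      show wd (fun k => γ (Equiv.swap i.castSucc i.succ k)) = _
      rw [h1]
      unfold sg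
      rw [Equiv.Perm.sign_swap hne]
      simp
    | one => simp [sg]
    | mul τ ρ _ _ h1 h2 =>
      have h3 := h2 (fun k => γ (τ k)) (cl_comp hγ τ)
      have h4 := h1 γ hγ
      show wd (fun k => γ (τ (ρ k))) = _
      rw [h3, h4, sg_mul, smul_smul, mul_comm]

end Run7.h24.CL
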